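import Mathlib
import Pool.Agent.T6.H1.Lz.FamLen

set_option autoImplicit false

/-! # Families of quadruples: the large prime divisors of the index, with a bounded number of exceptions

Let `u ≥ 2`, `ρ ≥ 1`, and let `(F i, C i, W i, k i)`, `i ∈ ι`, be any finite or infinite family of admissible
quadruples of Q1, such that any `j ≤ u` of the groups `W i` generate a group of rank at least `ρ j`.  For instance `ρ = 1` and
`W i = ⟨a i⟩` with multiplicatively independent rational numbers `a i`, such as the prime numbers; the fields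
`F i`, the sets `C i` and the integers `k i` are arbitrary.  Let `R` be any set of primes with
`∑_{l ∈ R} 1 / l < ∞`, let `η q → 0` and let `0 < ε ≤ 1`.

Let `S i x` be the number of the primes `q ≤ x` such that the Frobenius class of `q` in `F i` is contained
in `C i`, `W i` consists of `q`-units, and `l ^ (ν_l(k i) + 1)` does not divide the index `r_q(W i)` for any
prime `l ∈ R` and for any prime `l ≥ q ^ (1 / (ρ u + 1) - η q)`.  Let `δ i` be the sum of Lenstra's series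
`∑ μ(n) c(n) / [F L_n : ℚ]` over the `n` all of whose prime factors are in `R`.

(1) For every finite set `I` of indices and all large `x`, `S i x ≤ (δ i + ε) π(x)` for all `i ∈ I`, and
`S i x ≥ (δ i - ε) π(x)` for all `i ∈ I` with at most `3000 (u - 1) / ε` exceptions.

(2) For all `i ∈ ι` with at most `3000 (u - 1) / ε` exceptions, `S i x ≥ (δ i - ε) π(x)` for arbitrarily
large `x`.

The bound for the number of the exceptions does not depend on the family. So for large `u` the large primes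
`l`, from an arbitrarily small power of `q` on, can be taken into account for all but boundedly many members
of every independent family. (The file `ThinIndexSets` deals with a single quadruple and the primes
`l ≥ q ^ (1 / (ρ + 1) - η q)`, without exceptions.) -/

namespace Pool.Agent.Results.MP_48b1c3_nt.BoundedExceptions

open NumberField Finset Filter Topology Classical

/-- the Frobenius conjugacy class of `q` in `G(F/ℚ)` meets `C` -/
def FrobIn (F : IntermediateField ℚ (AlgebraicClosure ℚ)) [NumberField F]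
    (C : Set (F ≃ₐ[ℚ] F)) (q : ℕ) : Prop :=
  ∃ σ ∈ C, ∃ Q : Ideal (𝓞 F), Q.IsPrime ∧
    Q.comap (algebraMap ℤ (𝓞 F)) = Ideal.span {(q : ℤ)} ∧
    ∀ a b : 𝓞 F, (b : F) = σ (a : F) → b - a ^ q ∈ Q

/-- the index `r_q(W)` of `W` modulo `q` -/
noncomputable def ind (W : Subgroup ℚˣ) (q : ℕ) : ℕ :=
  (Subgroup.closure {u : (ZMod q)ˣ | ∃ w ∈ W,
    (((w : ℚ).num : ℤ) : ZMod q) = (u : ZMod q) * (((w : ℚ).den : ℕ) : ZMod q)}).index

/-- the rank of `W` is at least `r` -/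
def RankGE (r : ℕ) (W : Subgroup ℚˣ) : Prop :=
  ∃ b : Fin r → ℚˣ, (∀ j, b j ∈ W) ∧ ∀ e : Fin r → ℤ, ∏ j, b j ^ e j = 1 → ∀ j, e j = 0

/-- the number of the primes `q ≤ x` with Frobenius class in `C`, such that `W` consists of `q`-units
and no prime `l` which is in `R` or at least `q ^ (1 / (r + 1) - η q)` is an obstruction to `r_q(W) ∣ k` -/
noncomputable def S (F : IntermediateField ℚ (AlgebraicClosure ℚ)) [NumberField F]
    (C : Set (F ≃ₐ[ℚ] F)) (W : Subgroup ℚˣ) (k r : ℕ) (R : Set ℕ) (η : ℕ → ℝ) (x : ℕ) : ℕ :=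
  ((Finset.range (x + 1)).filter (fun q : ℕ => q.Prime ∧ FrobIn F C q ∧
    (∀ w ∈ W, padicValRat q (w : ℚ) = 0) ∧
    ∀ l : ℕ, l.Prime → (l ∈ R ∨ (q : ℝ) ^ (1 / ((r : ℝ) + 1) - η q) ≤ l) →
      ¬ l ^ (k.factorization l + 1) ∣ ind W q)).card

/-- the field `L_n` -/
noncomputable def L (W : Subgroup ℚˣ) (k n : ℕ) : IntermediateField ℚ (AlgebraicClosure ℚ) :=
  IntermediateField.adjoin ℚ {z : AlgebraicClosure ℚ | ∃ w ∈ W,
    z ^ (∏ l ∈ n.primeFactors, l ^ (k.factorization l + 1)) = algebraMap ℚ (AlgebraicClosure ℚ) (w : ℚ)}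

/-- the term of Lenstra's series if all prime factors of `n` are in `R`, and `0` otherwise -/
noncomputable def term (F : IntermediateField ℚ (AlgebraicClosure ℚ)) [NumberField F]
    (C : Set (F ≃ₐ[ℚ] F)) (W : Subgroup ℚˣ) (k : ℕ) (R : Set ℕ) (n : ℕ) : ℝ :=
  if ∀ l ∈ n.primeFactors, l ∈ R then
    (ArithmeticFunction.moebius n : ℝ) *
      (Nat.card {σ : F ≃ₐ[ℚ] F // σ ∈ C ∧ ∀ y : F, (y : AlgebraicClosure ℚ) ∈ L W k n → σ y = y} : ℝ) /
      (Module.finrank ℚ ↥(F ⊔ L W k n) : ℝ)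
  else 0

/-- the part of Lenstra's density which belongs to the primes in `R` -/
noncomputable def δ (F : IntermediateField ℚ (AlgebraicClosure ℚ)) [NumberField F]
    (C : Set (F ≃ₐ[ℚ] F)) (W : Subgroup ℚˣ) (k : ℕ) (R : Set ℕ) : ℝ :=
  ∑' n : ℕ, term F C W k R n

/-- the sets of primes agree -/
lemma S_eq (F : IntermediateField ℚ (AlgebraicClosure ℚ)) [NumberField F]
    (C : Set (F ≃ₐ[ℚ] F)) (W : Subgroup ℚˣ) (k r : ℕ) (R : Set ℕ) (η : ℕ → ℝ) (x : ℕ) :
    S F C W k r R η x = #((Pool.Agent.H386R2.Artin.PP x).filter (fun p : ℕ =>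
      (Pool.Agent.W171.LG.GF F C p ∧ Pool.Agent.W171.LG.UnW W p) ∧
        ∀ l : ℕ, l.Prime → (l ∈ R ∨ (p : ℝ) ^ (1 / ((r : ℝ) + 1) - η p) ≤ l) →
          ¬ Pool.Agent.H981R3.LN.ql k l ∣ (Pool.Agent.T6.H1.Lz.Gp W p).index)) := by
  unfold S
  congr 1
  ext p
  rw [mem_filter, mem_filter, Pool.Agent.H981R3.LN.mem_PP, mem_range, Nat.lt_succ_iff]
  constructor
  · rintro ⟨h1, h2, h3, h4, h5⟩
    have : Fact p.Prime := ⟨h2⟩
    exact ⟨⟨h1, h2⟩, ⟨h3, (Pool.Agent.W171.LG.unW_iff W).2 h4⟩, h5⟩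
  · rintro ⟨⟨h1, h2⟩, ⟨h3, h4⟩, h5⟩
    have : Fact p.Prime := ⟨h2⟩
    exact ⟨h1, h2, h3, (Pool.Agent.W171.LG.unW_iff W).1 h4, h5⟩

/-- **Lenstra's condition at the large primes for all but boundedly many members of a family** -/
theorem result (u ρ : ℕ) (hu2 : 2 ≤ u) (hρ : 1 ≤ ρ) (ε : ℝ) (hε : 0 < ε) (hε1 : ε ≤ 1)
    (ι : Type) (F : ι → IntermediateField ℚ (AlgebraicClosure ℚ)) [∀ i, NumberField (F i)]
    [∀ i, IsGalois ℚ (F i)] (C : (i : ι) → Set (F i ≃ₐ[ℚ] F i)) (W : ι → Subgroup ℚˣ) (k : ι → ℕ)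
    (hC : ∀ i, ∀ σ ∈ C i, ∀ τ : F i ≃ₐ[ℚ] F i, τ * σ * τ⁻¹ ∈ C i) (hW : ∀ i, (W i).FG)
    (_hk : ∀ i, 0 < k i)
    (hrank : ∀ J : Finset ι, 1 ≤ #J → #J ≤ u →
      RankGE (ρ * #J) (Subgroup.closure (⋃ i ∈ J, (W i : Set ℚˣ))))
    (R : Set ℕ) (hR : ∀ l ∈ R, l.Prime) (hsum : Summable (fun l : R => 1 / ((l : ℕ) : ℝ)))
    (η : ℕ → ℝ) (hη : Tendsto η atTop (𝓝 0)) :
    (∀ I : Finset ι, ∀ᶠ x : ℕ in atTop,
      (∀ i ∈ I, (S (F i) (C i) (W i) (k i) (ρ * u) R η x : ℝ) ≤
        (δ (F i) (C i) (W i) (k i) R + ε) * (Nat.primeCounting x : ℝ)) ∧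
      (#(I.filter (fun i => (S (F i) (C i) (W i) (k i) (ρ * u) R η x : ℝ) <
        (δ (F i) (C i) (W i) (k i) R - ε) * (Nat.primeCounting x : ℝ))) : ℝ) ≤ 3000 * ((u : ℝ) - 1) / ε) ∧
    {i : ι | ∀ᶠ x : ℕ in atTop, (S (F i) (C i) (W i) (k i) (ρ * u) R η x : ℝ) <
      (δ (F i) (C i) (W i) (k i) R - ε) * (Nat.primeCounting x : ℝ)}.encard ≤
      (⌊3000 * ((u : ℝ) - 1) / ε⌋₊ : ℕ) := by
  have hu : 1 ≤ u := by omega
  have h1 : ∀ I : Finset ι, ∀ᶠ x : ℕ in atTop,
      (∀ i ∈ I, (S (F i) (C i) (W i) (k i) (ρ * u) R η x : ℝ) ≤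
        (δ (F i) (C i) (W i) (k i) R + ε) * (Nat.primeCounting x : ℝ)) ∧
      (#(I.filter (fun i => (S (F i) (C i) (W i) (k i) (ρ * u) R η x : ℝ) <
        (δ (F i) (C i) (W i) (k i) R - ε) * (Nat.primeCounting x : ℝ))) : ℝ) ≤ 3000 * ((u : ℝ) - 1) / ε := by
    intro I
    have key := Pool.Agent.T6.H1.Lz.fam_len {i // i ∈ I} (fun i => F i.1) (fun i => C i.1) (fun i => W i.1)
      (fun i => k i.1) (fun i => hC i.1) (fun i => hW i.1) u ρ hu hρ
      (by
        intro J hJ1 hJu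
        have h2 := hrank (J.map (Function.Embedding.subtype _)) (by rw [card_map]; exact hJ1)
          (by rw [card_map]; exact hJu)
        rw [card_map] at h2
        have e : (⋃ i ∈ J.map (Function.Embedding.subtype (fun i => i ∈ I)), (W i : Set ℚˣ)) =
            ⋃ i ∈ J, ((fun i : {i // i ∈ I} => W i.1) i : Set ℚˣ) := by
          ext w
          simp only [Set.mem_iUnion]
          constructor
          · rintro ⟨i, hi, hw⟩
            obtain ⟨a, ha, rfl⟩ := Finset.mem_map.1 hi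
            exact ⟨a, ha, hw⟩
          · rintro ⟨a, ha, hw⟩
            exact ⟨a.1, Finset.mem_map.2 ⟨a, ha, rfl⟩, hw⟩
        rw [e] at h2
        exact h2) R hR hsum η hη ε hε hε1
    filter_upwards [key] with x hx
    simp only [S_eq]
    refine ⟨fun i hi => ?_, ?_⟩
    · have h3 := hx.1 ⟨i, hi⟩
      exact h3
    · refine le_trans (le_of_eq ?_) hx.2
      norm_cast
      rw [← card_map (Function.Embedding.subtype (fun i => i ∈ I))]
      congr 1
      ext i
      simp only [mem_filter, Finset.mem_map, Function.Embedding.subtype_apply, mem_univ, true_and]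
      constructor
      · rintro ⟨hi, h⟩
        exact ⟨⟨i, hi⟩, h, rfl⟩
      · rintro ⟨a, h, rfl⟩
        exact ⟨a.2, h⟩
  refine ⟨h1, ?_⟩
  by_contra hcon
  rw [not_le] at hcon
  obtain ⟨V, hVS, hV⟩ := Set.exists_subset_encard_eq (Order.add_one_le_of_lt hcon)
  have hVfin : V.Finite := Set.finite_of_encard_eq_coe (k := ⌊3000 * ((u : ℝ) - 1) / ε⌋₊ + 1)
    (by rw [hV]; push_cast; rfl)
  obtain ⟨I, rfl⟩ := hVfin.exists_finset_coe
  rw [Set.encard_coe_eq_coe_finsetCard] at hV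
  have hTc : I.card = ⌊3000 * ((u : ℝ) - 1) / ε⌋₊ + 1 := by exact_mod_cast hV
  have h2 : ∀ᶠ x : ℕ in atTop, ∀ i ∈ I, (S (F i) (C i) (W i) (k i) (ρ * u) R η x : ℝ) <
      (δ (F i) (C i) (W i) (k i) R - ε) * (Nat.primeCounting x : ℝ) := by
    rw [eventually_all_finset]
    intro i hi
    exact hVS hi
  obtain ⟨x, hx1, hx2⟩ := ((h1 I).and h2).exists
  have h3 : I.filter (fun i => (S (F i) (C i) (W i) (k i) (ρ * u) R η x : ℝ) <
      (δ (F i) (C i) (W i) (k i) R - ε) * (Nat.primeCounting x : ℝ)) = I := by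
    rw [filter_eq_self]
    exact hx2
  have h4 := hx1.2
  rw [h3, hTc] at h4
  push_cast at h4
  have h5 := Nat.lt_floor_add_one (3000 * ((u : ℝ) - 1) / ε)
  linarith

end Pool.Agent.Results.MP_48b1c3_nt.BoundedExceptions
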