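import Pool.Agent.T6.H2.PR.Cls
import Pool.Agent.T6.H2.PR.Grp
import Pool.Agent.T6.H2.PR.Ev
import Pool.Agent.T6.H2.PT.IsoP

set_option autoImplicit false

/-!
# Isolated constellations in the sets of Lenstra, for all but boundedly many groups (helper2)

Let `F` be the `m`-th cyclotomic field, `C = {σ_a}`. For a family `G` of finitely generated groups `W` of rational
numbers such that any `u` of them generate a group of rank at least `9`, and for all but at most `2 (u - 1)` of the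
groups (for all of them, if `u = 1`), the set `S(F, C, W, κ)` contains, for arbitrarily large `X`, at least
`κ₀ X / (log X) ^ (K + 2)` primes `q ≤ X` for which the numbers `c_l q + d_l`, `l ≤ K`, are products of at most `t`
primes, all large, `(q - 1) / D` is a product of at most two primes `> X ^ (1/10)`, all the other integers near one of
these numbers have a prime factor `≤ X ^ β`, and which lie in narrow arithmetic progressions of such primes.
-/

namespace Pool.Agent.Results.MP_48b1c3_nt.IsolatedConstellations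

open Finset Filter
open Pool.Agent.X32.Uni Pool.Agent.T6.H2.PT Pool.Agent.T6.H2.PR

/-- The set `S(F, C, W, κ)` for the `m`-th cyclotomic field `F` and `C = {σ_a}`: primes
`q ≡ a mod m` at which all elements of `W` are units, such that the index of the image of `W` in
`(ℤ/q)ˣ` divides `κ`. -/
def InS (m a κ : ℕ) (W : Subgroup ℚˣ) (q : ℕ) : Prop :=
  q.Prime ∧ q ≡ a [MOD m] ∧ (∀ w ∈ W, padicValRat q (w : ℚ) = 0) ∧
    (Subgroup.closure {u : (ZMod q)ˣ | ∃ w ∈ W, (((w : ℚ).num : ℤ) : ZMod q) =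
      (u : ZMod q) * (((w : ℚ).den : ℕ) : ZMod q)}).index ∣ κ

/-- the rank of `V` is at least `R` -/
def RankGE (R : ℕ) (V : Subgroup ℚˣ) : Prop :=
  ∃ b : Fin R → ℚˣ, (∀ j, b j ∈ V) ∧ ∀ e : Fin R → ℤ, ∏ j, b j ^ e j = 1 → ∀ j, e j = 0

/-- `|v| > 1`, and `|v|` is a product of at most `r` primes, all of them larger than `y` -/
def AlmostPrime (r : ℕ) (y : ℝ) (v : ℤ) : Prop :=
  1 < |v| ∧ v.natAbs.primeFactorsList.length ≤ r ∧ ∀ p : ℕ, p.Prime → (p : ℤ) ∣ v → y < p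

variable {K : ℕ}

/-- the numbers `q`, `(q - 1) / D` and `c_l q + d_l` -/
def vals (D : ℕ) (c d : Fin K → ℤ) (q : ℕ) : Set ℤ :=
  {v | v = (q : ℤ) ∨ v = (((q - 1) / D : ℕ) : ℤ) ∨ ∃ l, v = c l * q + d l}

/-- `D` divides `q - 1`, `(q - 1) / D` is a product of at most two primes, all `> X ^ (1/10)`, the `c_l q + d_l` are up
to sign products of at most `t` primes, all `> X ^ (1/t)`, and each integer `z` at distance at most `w` of one of the
numbers `q`, `(q - 1) / D` and `c_l q + d_l` has a prime factor `≤ y`, unless `z` or `-z` is one of these numbers -/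
def Isolated (D t : ℕ) (c d : Fin K → ℤ) (X : ℕ) (w y : ℝ) (q : ℕ) : Prop :=
  D ∣ q - 1 ∧ AlmostPrime 2 ((X : ℝ) ^ (1 / 10 : ℝ)) (((q - 1) / D : ℕ) : ℤ) ∧
    (∀ l, AlmostPrime t ((X : ℝ) ^ (1 / (t : ℝ))) (c l * q + d l)) ∧
    ∀ v ∈ vals D c d q, ∀ z : ℤ, |(z : ℝ) - v| ≤ w → (∀ v' ∈ vals D c d q, z ≠ v' ∧ z ≠ -v') →
      ∃ p : ℕ, p.Prime ∧ (p : ℝ) ≤ y ∧ (p : ℤ) ∣ z

open Classical in
/-- For every `β > 0` there is `ε > 0` such that for all `s`, `r` and all colourings `χ` of the integers with `r`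
colours there is `E` with the following property: for arbitrarily large `X` at least `κ₀ X / (log X) ^ (K + 2)` of the
`q ≤ X` lie in an arithmetic progression with `s` terms and difference `≤ (log X) ^ E` whose terms all have the colour
of `q` and are elements of `S(F, C, W, κ)` which are isolated (with the parameters `ε log X` and `X ^ β`). -/
def Rich (m a κ D t : ℕ) (c d : Fin K → ℤ) (κ₀ : ℝ) (W : Subgroup ℚˣ) : Prop :=
  ∀ β : ℝ, 0 < β → ∃ ε : ℝ, 0 < ε ∧ ∀ s r : ℕ, 1 ≤ s → ∀ χ : ℕ → Fin r, ∃ E : ℕ, ∀ X₁ : ℕ, ∃ X ≥ X₁,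
    κ₀ * (X / Real.log X ^ (K + 2)) ≤ (((Icc 1 X).filter (fun q => ∃ x b : ℕ, 1 ≤ b ∧ (b : ℝ) ≤ Real.log X ^ E ∧
      (∃ i < s, q = x + i * b) ∧ ∀ i < s, χ (x + i * b) = χ q ∧ InS m a κ W (x + i * b) ∧
        Isolated D t c d X (ε * Real.log X) ((X : ℝ) ^ β) (x + i * b))).card : ℝ)

/-- the local condition: for every prime `p` there is an `x` which is a unit modulo `p`, congruent to `a` modulo `p` if
`p` divides `m`, such that the `c_l x + d_l` are units modulo `p`, and such that `x - 1` is a unit modulo `p` unless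
`p = 2` or `p` divides `m` -/
def Local (m a : ℕ) (c d : Fin K → ℤ) : Prop :=
  ∀ p : ℕ, p.Prime → ∃ x : ℤ, (p ∣ m → (p : ℤ) ∣ x - a) ∧ ¬ (p : ℤ) ∣ x ∧
    (∀ l, ¬ (p : ℤ) ∣ c l * x + d l) ∧ (p ≠ 2 → ¬ p ∣ m → ¬ (p : ℤ) ∣ x - 1)

theorem gcd_dvd_pow (m j p : ℕ) (hm : 0 < m) (hp : p.Prime) : Nat.gcd m (p ^ j) ∣ p ^ m.factorization p := by
  obtain ⟨i, -, hi⟩ := (Nat.dvd_prime_pow hp).1 (Nat.gcd_dvd_right m (p ^ j))
  rw [hi]
  apply pow_dvd_pow
  rw [← Nat.Prime.pow_dvd_iff_le_factorization hp hm.ne', ← hi]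
  exact Nat.gcd_dvd_left _ _

theorem vals_iff (M r D : ℕ) (c d : Fin K → ℤ) (hD0 : 0 < D) (hDM : D ∣ M) (hDr : D ∣ r - 1) (hr : 2 ≤ r) (y : ℕ) (v : ℤ) :
    v ∈ vals D c d (M * y + r) ↔ ∃ l, v = fa M D c l * (y : ℤ) + fb r D c d l := by
  have h1 : (M * y + r - 1) / D = M / D * y + (r - 1) / D := by
    have e : M * y + r - 1 = D * (M / D * y + (r - 1) / D) := by
      rw [mul_add, ← mul_assoc, Nat.mul_div_cancel' hDM, Nat.mul_div_cancel' hDr]
      omega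
    rw [e, Nat.mul_div_cancel_left _ hD0]
  have e0 : fa M D c 0 * (y : ℤ) + fb r D c d 0 = ((M * y + r : ℕ) : ℤ) := by
    change (M : ℤ) * y + (r : ℤ) = _
    push_cast
    ring
  have e1 : fa M D c 1 * (y : ℤ) + fb r D c d 1 = (((M * y + r - 1) / D : ℕ) : ℤ) := by
    rw [h1]
    change ((M / D : ℕ) : ℤ) * y + (((r - 1) / D : ℕ) : ℤ) = _
    push_cast
    ring
  have e2 : ∀ l : Fin K, fa M D c l.succ.succ * (y : ℤ) + fb r D c d l.succ.succ = c l * ((M * y + r : ℕ) : ℤ) + d l := by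
    intro l
    change c l * (M : ℤ) * y + (c l * r + d l) = _
    push_cast
    ring
  unfold vals
  rw [Set.mem_ofPred_eq]
  constructor
  · rintro (h | h | ⟨l, h⟩)
    · exact ⟨0, by rw [h, e0]⟩
    · exact ⟨1, by rw [h, e1]⟩
    · exact ⟨l.succ.succ, by rw [h, e2]⟩
  · rintro ⟨l, h⟩
    revert h
    refine Fin.cases (fun h => ?_) (fun l => ?_) l
    · exact Or.inl (by rw [h, e0])
    · refine Fin.cases (fun h => ?_) (fun l h => ?_) l
      · exact Or.inr (Or.inl (h.trans e1))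
      · exact Or.inr (Or.inr ⟨l, by rw [h, e2]⟩)

theorem result (m a κ : ℕ) (hm : 0 < m) (ham : a.Coprime m) (hκ : 0 < κ) (c d : Fin K → ℤ) (hc : ∀ l, c l ≠ 0)
    (h1 : ∀ p : ℕ, p.Prime → p ≠ 2 → p ∣ m → ¬ a ≡ 1 [MOD Nat.gcd m (p ^ (κ.factorization p + 1))])
    (hloc : Local m a c d) :
    ∃ D t : ℕ, D ∣ 2 * m ∧ 1 ≤ t ∧ ∀ u : ℕ, 1 ≤ u → ∃ κ₀ : ℝ, 0 < κ₀ ∧ ∀ G : Set (Subgroup ℚˣ),
      (∀ W ∈ G, W.FG ∧
        ((∃ N : ℕ, ∀ q : ℕ, N < q → q.Prime → q ≡ a [MOD m] →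
            ∃ w ∈ W, ¬ IsSquare (((w : ℚ).num * (w : ℚ).den : ℤ) : ZMod q)) ∨
          ¬ a ≡ 1 [MOD Nat.gcd m (2 ^ (κ.factorization 2 + 1))])) →
      (∀ J : Finset (Subgroup ℚˣ), (J : Set (Subgroup ℚˣ)) ⊆ G → J.card = u →
        RankGE 9 (sSup (J : Set (Subgroup ℚˣ)))) →
      {W ∈ G | ¬ Rich m a κ D t c d κ₀ W}.encard ≤ (2 * (u - 1) : ℕ) := by
  classical
  obtain ⟨M, r₀, D, K', hM, hr₀, hD0, hDM, hDr, hmM, hra, hsys, hD2⟩ := sys_ex m a hm ham c d hc hloc (by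
    intro p hp hp2 hpm h2
    apply h1 p hp hp2 hpm
    have h3 := (Int.natCast_dvd_natCast.2 (gcd_dvd_pow m (κ.factorization p + 1) p hm hp)).trans h2
    exact (Nat.modEq_iff_dvd.2 (by push_cast at h3 ⊢; exact h3)).symm)
  obtain ⟨t₀, ht₀, κ₁, hκ₁, HI⟩ := isoP (K + 2) M (by omega)
  refine ⟨D, t₀ + 1, hD2, by omega, fun u hu => ?_⟩
  obtain ⟨n, hn⟩ : ∃ n : ℕ, n = 2 * (u - 1) + 1 := ⟨_, rfl⟩
  have hn0 : (0 : ℝ) < n := by exact_mod_cast (by omega : 0 < n)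
  have hMr0 : (0 : ℝ) < (M : ℝ) + r₀ := by positivity
  have hMr1 : (1 : ℝ) ≤ (M : ℝ) + r₀ := by
    have : (1 : ℝ) ≤ M := by exact_mod_cast hM
    have : (0 : ℝ) ≤ r₀ := by positivity
    linarith
  obtain ⟨κ₀, hκ₀⟩ : ∃ κ₀ : ℝ, κ₀ = κ₁ ^ 2 / (4 * n * (M + r₀)) := ⟨_, rfl⟩
  have hκ₀0 : 0 < κ₀ := by rw [hκ₀]; positivity
  refine ⟨κ₀, hκ₀0, fun G hG hJ => ?_⟩
  by_contra hcon
  push Not at hcon
  obtain ⟨V, hVS, hV⟩ := Set.exists_subset_encard_eq (Order.add_one_le_of_lt hcon)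
  have hVfin : V.Finite := Set.finite_of_encard_eq_coe (k := 2 * (u - 1) + 1) (by rw [hV]; push_cast; rfl)
  obtain ⟨T, rfl⟩ := hVfin.exists_finset_coe
  rw [Set.encard_coe_eq_coe_finsetCard] at hV
  have hTc : T.card = n := by rw [hn]; exact_mod_cast hV
  have hTS : ∀ W ∈ T, W ∈ G ∧ ¬ Rich m a κ D (t₀ + 1) c d κ₀ W := fun W hW => hVS hW
  -- the data of the failure
  have hfail : ∀ W : {x // x ∈ T}, ∃ β : ℝ, 0 < β ∧ ∀ ε : ℝ, 0 < ε → ∃ s r : ℕ, 1 ≤ s ∧ ∃ χ : ℕ → Fin r,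
      ∀ E : ℕ, ∃ X₁ : ℕ, ∀ X ≥ X₁,
      (((Icc 1 X).filter (fun q => ∃ x b : ℕ, 1 ≤ b ∧ (b : ℝ) ≤ Real.log X ^ E ∧
      (∃ i < s, q = x + i * b) ∧ ∀ i < s, χ (x + i * b) = χ q ∧ InS m a κ W (x + i * b) ∧
        Isolated D (t₀ + 1) c d X (ε * Real.log X) ((X : ℝ) ^ β) (x + i * b))).card : ℝ) <
      κ₀ * (X / Real.log X ^ (K + 2)) := by
    intro W
    have h5 := (hTS W W.2).2
    unfold Rich at h5
    push Not at h5
    obtain ⟨β, hβ, h6⟩ := h5
    refine ⟨β, hβ, fun ε hε => ?_⟩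
    obtain ⟨s, r, hs, χ, h7⟩ := h6 ε hε
    exact ⟨s, r, hs, χ, h7⟩
  choose ββ hββ hfail using hfail
  have hTne : (univ : Finset {x // x ∈ T}).Nonempty := by
    rw [Finset.univ_nonempty_iff]
    have : T.Nonempty := by
      rw [← Finset.card_pos]
      omega
    obtain ⟨W, hW⟩ := this
    exact ⟨⟨W, hW⟩⟩
  obtain ⟨β₀, hβ₀, hβ₀W⟩ : ∃ β₀ : ℝ, 0 < β₀ ∧ ∀ W, β₀ ≤ ββ W :=
    ⟨univ.inf' hTne ββ, (Finset.lt_inf'_iff hTne).2 fun W _ => hββ W, fun W => Finset.inf'_le _ (mem_univ W)⟩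
  obtain ⟨ε₀, hε₀, HI⟩ := HI β₀ K' hβ₀
  have hfail' := fun W => hfail W (ε₀ / 2) (by positivity)
  choose ss rr hss χχ hfail' using hfail'
  obtain ⟨s, hs⟩ : ∃ s : ℕ, s = univ.sup ss + 1 := ⟨_, rfl⟩
  have hsW : ∀ W, ss W ≤ s := fun W => by
    have := Finset.le_sup (f := ss) (mem_univ W)
    omega
  -- isolated arguments and progressions
  obtain ⟨c₀, Y₀, HI⟩ := HI s (Fintype.card ((∀ W : {x // x ∈ T}, Fin (rr W)) × Finset {x // x ∈ T})) 1 (κ₁ / 2)
    (by omega) one_pos (by positivity)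
  have hX₁ := fun W => hfail' W (c₀ + 1)
  choose X₁ hX₁ using hX₁
  -- the exceptional primes
  obtain ⟨C, H, hC, Hfam⟩ := fam T u (by
    intro J hJT hJc
    exact hJ J (fun W hW => (hTS W (hJT hW)).1) hJc)
  have hun : ∀ W : Subgroup ℚˣ, ∃ H : ℕ, W ∈ T → ∀ p : ℕ, ∀ hp : p.Prime, H < p → W ≤ Pool.Agent.Y855.Qs p hp 0 := by
    intro W
    by_cases hW : W ∈ T
    · obtain ⟨H, hH⟩ := Pool.Agent.Y855.fg_units W (hG W (hTS W hW).1).1
      exact ⟨H, fun _ => hH⟩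
    · exact ⟨0, fun h => absurd h hW⟩
  choose HW hHW using hun
  have hnr : ∀ W : Subgroup ℚˣ, ∃ N : ℕ, W ∈ T → (∀ q : ℕ, N < q → q.Prime → q ≡ a [MOD m] →
      (∃ w ∈ W, ¬ IsSquare (((w : ℚ).num * (w : ℚ).den : ℤ) : ZMod q)) ∨
      ¬ a ≡ 1 [MOD Nat.gcd m (2 ^ (κ.factorization 2 + 1))]) := by
    intro W
    by_cases hW : W ∈ T
    · rcases (hG W (hTS W hW).1).2 with ⟨N, hN⟩ | h2
      · exact ⟨N, fun _ q hq hqp hqa => Or.inl (hN q hq hqp hqa)⟩
      · exact ⟨0, fun _ q _ _ _ => Or.inr h2⟩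
    · exact ⟨0, fun h => absurd h hW⟩
  choose NN hNN using hnr
  obtain ⟨H₁, hH₁⟩ : ∃ H₁ : ℕ, H₁ = H + ∑ W ∈ T, HW W + ∑ W ∈ T, NN W + 2 := ⟨_, rfl⟩
  have ht₀0 : (0 : ℝ) < t₀ := by exact_mod_cast ht₀
  -- large arguments
  have hev1 := ev_pow ((M : ℝ) + r₀) (1 / 9) (1 / 10) hMr1 (by norm_num) (by norm_num)
  have hev2 := ev_pow ((M : ℝ) + r₀) (1 / (t₀ : ℝ)) (1 / ((t₀ + 1 : ℕ) : ℝ)) hMr1 (by positivity) (by
    apply one_div_lt_one_div_of_lt ht₀0
    push_cast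
    linarith)
  have hev3 := ev_log (K + 2) (C * ((M : ℝ) + r₀) ^ (10 / 9 : ℝ)) (κ₁ ^ 2 / 4) (80 / 81) (by positivity) (by norm_num)
  have hev4 : ∀ᶠ Y : ℕ in atTop, (H₁ : ℝ) ≤ (Y : ℝ) ^ (1 / (t₀ : ℝ)) :=
    ((tendsto_rpow_atTop (by positivity : 0 < 1 / (t₀ : ℝ))).comp tendsto_natCast_atTop_atTop).eventually_ge_atTop _
  have hev5 : ∀ᶠ Y : ℕ in atTop, (M : ℝ) ≤ Real.log Y :=
    (Real.tendsto_log_atTop.comp tendsto_natCast_atTop_atTop).eventually_ge_atTop _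
  obtain ⟨Y, hY1, hY2, hY3, hY4, hY5, hY6⟩ := (hev1.and (hev2.and (hev3.and (hev4.and (hev5.and
    (eventually_ge_atTop (Y₀ + univ.sup X₁ + M + r₀ + 3))))))).exists
  obtain ⟨X, hX⟩ : ∃ X : ℕ, X = M * Y + r₀ := ⟨_, rfl⟩
  have hYX : Y ≤ X := by
    rw [hX]
    calc Y = 1 * Y := (one_mul Y).symm
      _ ≤ M * Y := Nat.mul_le_mul_right Y hM
      _ ≤ _ := Nat.le_add_right _ _
  have hYpos : (0 : ℝ) < Y := by exact_mod_cast (by omega : 0 < Y)
  have hY1' : (1 : ℝ) ≤ Y := by exact_mod_cast (by omega : 1 ≤ Y)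
  have hXpos : (0 : ℝ) < X := by exact_mod_cast (by omega : 0 < X)
  have hX1 : (1 : ℝ) ≤ X := by exact_mod_cast (by omega : 1 ≤ X)
  have hXYr : (X : ℝ) ≤ (M + r₀) * Y := by
    rw [hX]
    push_cast
    have : (0 : ℝ) ≤ r₀ := by positivity
    nlinarith
  have hlogY : 0 < Real.log Y := Real.log_pos (by exact_mod_cast (by omega : 1 < Y))
  have hlogYX : Real.log Y ≤ Real.log X := Real.log_le_log hYpos (by exact_mod_cast hYX)
  have hlogX : 0 < Real.log X := lt_of_lt_of_le hlogY hlogYX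
  have hlogXY : Real.log X ≤ 2 * Real.log Y := by
    have h5 : (X : ℝ) ≤ (Y : ℝ) ^ 2 := by
      refine hXYr.trans ?_
      rw [pow_two]
      apply mul_le_mul_of_nonneg_right _ hYpos.le
      exact_mod_cast (by omega : M + r₀ ≤ Y)
    calc Real.log X ≤ Real.log ((Y : ℝ) ^ 2) := Real.log_le_log hXpos h5
      _ = 2 * Real.log Y := by rw [Real.log_pow]; push_cast; ring
  obtain ⟨hVlow, HI⟩ := HI Y (by omega) (fa M D c) (fb r₀ D c d) 0 1 (hsys Y (by omega))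
  obtain ⟨hcount, hcov⟩ := HI 0 Y le_rfl (by push_cast; linarith)
  obtain ⟨GI, hGI⟩ : ∃ GI : Finset ℕ, GI = GoodI (fa M D c) (fb r₀ D c d) 0 1 t₀ Y (ε₀ * Real.log Y)
    ((Y : ℝ) ^ β₀) 0 Y := ⟨_, rfl⟩
  rw [← hGI] at hcount hcov
  -- the exceptional primes of this size
  obtain ⟨L, hL⟩ : ∃ L : ℝ, L = Real.log Y + 9 / 8 * Real.log (M + r₀) := ⟨_, rfl⟩
  have hlogMr : 0 ≤ Real.log ((M : ℝ) + r₀) := Real.log_nonneg hMr1
  have hL0 : 0 ≤ L := by rw [hL]; positivity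
  obtain ⟨B, hB1, hB2⟩ := Hfam L hL0
  have hB3 : (B.card : ℝ) ≤ κ₁ ^ 2 / 4 * (Y / Real.log Y ^ (K + 2)) := by
    refine (hB1.trans (le_of_eq ?_)).trans hY3
    have h5 : Real.exp ((80 / 81) * L) = (Y : ℝ) ^ (80 / 81 : ℝ) * ((M : ℝ) + r₀) ^ (10 / 9 : ℝ) := by
      rw [Real.rpow_def_of_pos hYpos, Real.rpow_def_of_pos hMr0, ← Real.exp_add, hL]
      congr 1
      ring
    rw [h5]
    ring
  have hexp8 : Real.exp ((8 / 9) * L) = (Y : ℝ) ^ (8 / 9 : ℝ) * ((M : ℝ) + r₀) := by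
    rw [Real.rpow_def_of_pos hYpos, hL]
    have : (8 / 9 : ℝ) * (Real.log Y + 9 / 8 * Real.log (M + r₀)) = Real.log Y * (8 / 9) + Real.log (M + r₀) := by ring
    rw [this, Real.exp_add, Real.exp_log hMr0]
  -- the values at a good argument
  have hval : ∀ y ∈ GI, (y ≤ Y ∧ 1 ≤ y) ∧ (M * y + r₀).Prime ∧ H₁ < M * y + r₀ ∧
      Almost 2 ((Y : ℝ) ^ (1 / 9 : ℝ)) (((M * y + r₀ - 1) / D : ℕ) : ℤ) ∧
      (∀ l, Almost t₀ ((Y : ℝ) ^ (1 / (t₀ : ℝ))) (fa M D c l * (y : ℤ) + fb r₀ D c d l)) ∧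
      IsoAt (fa M D c) (fb r₀ D c d) (ε₀ * Real.log Y) ((Y : ℝ) ^ β₀) y := by
    intro y hy
    rw [hGI] at hy
    unfold GoodI GoodL at hy
    rw [mem_filter, mem_filter, mem_Ioc] at hy
    obtain ⟨⟨⟨g1, g2⟩, g3, g4, g5⟩, g6⟩ := hy
    have e0 : fa M D c 0 * (y : ℤ) + fb r₀ D c d 0 = ((M * y + r₀ : ℕ) : ℤ) := by
      change (M : ℤ) * y + (r₀ : ℤ) = _
      push_cast
      ring
    have e1 : fa M D c 1 * (y : ℤ) + fb r₀ D c d 1 = (((M * y + r₀ - 1) / D : ℕ) : ℤ) := by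
      have h1 : (M * y + r₀ - 1) / D = M / D * y + (r₀ - 1) / D := by
        have e : M * y + r₀ - 1 = D * (M / D * y + (r₀ - 1) / D) := by
          rw [mul_add, ← mul_assoc, Nat.mul_div_cancel' hDM, Nat.mul_div_cancel' hDr]
          omega
        rw [e, Nat.mul_div_cancel_left _ hD0]
      rw [h1]
      change ((M / D : ℕ) : ℤ) * y + (((r₀ - 1) / D : ℕ) : ℤ) = _
      push_cast
      ring
    rw [e0, Int.natAbs_natCast] at g3
    rw [e1] at g4
    refine ⟨⟨g2, by omega⟩, g3, ?_, g4, g5, g6⟩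
    have h5 := (g5 0).2.2 (M * y + r₀) g3 (by rw [e0])
    have h6 : (H₁ : ℝ) < ((M * y + r₀ : ℕ) : ℝ) := lt_of_le_of_lt hY4 h5
    exact_mod_cast h6
  have hHle : ∀ W ∈ T, HW W ≤ H₁ ∧ NN W ≤ H₁ := by
    intro W hW
    have h5 := Finset.single_le_sum (f := HW) (fun j _ => Nat.zero_le _) hW
    have h6 := Finset.single_le_sum (f := NN) (fun j _ => Nat.zero_le _) hW
    omega
  have hDq : ∀ y : ℕ, D ∣ M * y + r₀ - 1 := by
    intro y
    have e : M * y + r₀ - 1 = M * y + (r₀ - 1) := by omega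
    rw [e]
    exact dvd_add (hDM.mul_right y) hDr
  have hqa : ∀ y : ℕ, M * y + r₀ ≡ a [MOD m] := by
    intro y
    have h5 : M * y + r₀ ≡ 0 + r₀ [MOD m] :=
      Nat.ModEq.add_right r₀ ((Nat.modEq_zero_iff_dvd).2 (hmM.mul_right y))
    rw [zero_add] at h5
    exact h5.trans hra
  -- the groups which are bad at a good argument
  have hbadW : ∀ y ∈ GI, M * y + r₀ ∉ B →
      (T.filter (fun W => ¬ (Pool.Agent.Y855.img (M * y + r₀) W).index ∣ κ)).card ≤ 2 * (u - 1) := by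
    intro y hy hyB
    obtain ⟨⟨g1, g1'⟩, g2, g3, g4, g5, g6⟩ := hval y hy
    refine few_bad m a κ u D hκ _ g2 (by omega) T (hqa y) (hDq y) ?_ ?_ h1 ?_ ?_ ?_
    · have := g4.2.1
      rwa [Int.natAbs_natCast] at this
    · intro p hp hpD
      rcases (Nat.Prime.dvd_mul hp).1 (hpD.trans hD2) with h5 | h5
      · exact Or.inl ((Nat.prime_dvd_prime_iff_eq hp Nat.prime_two).1 h5)
      · exact Or.inr h5
    · intro W hW
      exact hHW W hW _ g2 (by have := (hHle W hW).1; omega)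
    · intro W hW
      exact hNN W hW _ (by have := (hHle W hW).2; omega) g2 (hqa y)
    · intro l hl hld
      have hlq : l ∣ M * y + r₀ - 1 := hld.trans (Nat.div_dvd_of_dvd (hDq y))
      have h5 := hB2 (M * y + r₀) l g2 (by omega) hyB hl hlq (by
        rw [hexp8]
        have h6 : (Y : ℝ) ^ (1 / 9 : ℝ) < l := g4.2.2 l hl (Int.natCast_dvd_natCast.2 hld)
        have hY9 : (0 : ℝ) < (Y : ℝ) ^ (1 / 9 : ℝ) := by positivity
        have hl0 : (0 : ℝ) < l := by exact_mod_cast hl.pos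
        refine Nat.cast_div_le.trans ?_
        have h7 : ((M * y + r₀ - 1 : ℕ) : ℝ) ≤ (M + r₀) * Y := by
          have h8 : M * y + r₀ - 1 ≤ X := by
            rw [hX]
            have := Nat.mul_le_mul_left M g1
            omega
          have h9 : ((M * y + r₀ - 1 : ℕ) : ℝ) ≤ X := by exact_mod_cast h8
          exact h9.trans hXYr
        rw [div_le_iff₀ hl0]
        have h8 : (Y : ℝ) ^ (8 / 9 : ℝ) * (Y : ℝ) ^ (1 / 9 : ℝ) = Y := by
          rw [← Real.rpow_add hYpos]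
          norm_num
        calc ((M * y + r₀ - 1 : ℕ) : ℝ) ≤ (M + r₀) * Y := h7
          _ = (Y : ℝ) ^ (8 / 9 : ℝ) * (M + r₀) * (Y : ℝ) ^ (1 / 9 : ℝ) := by rw [mul_right_comm, h8]; ring
          _ ≤ (Y : ℝ) ^ (8 / 9 : ℝ) * (M + r₀) * l := by gcongr)
      omega
  -- the colouring
  obtain ⟨pat, hpat⟩ : ∃ pat : ℕ → Finset {x // x ∈ T}, ∀ y W, W ∈ pat y ↔
      (Pool.Agent.Y855.img (M * y + r₀) (W : Subgroup ℚˣ)).index ∣ κ :=
    ⟨fun y => univ.filter (fun W => (Pool.Agent.Y855.img (M * y + r₀) (W : Subgroup ℚˣ)).index ∣ κ),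
      fun y W => by rw [mem_filter]; simp⟩
  obtain ⟨P, p1, p2, p3⟩ := hcov (fun y => Fintype.equivFin _
    ((fun W => χχ W (M * y + r₀) : ∀ W : {x // x ∈ T}, Fin (rr W)), pat y))
  have hcol : ∀ z ∈ P, ∀ i < s, (∀ W, χχ W (M * (z.1 + i * z.2) + r₀) = χχ W (M * z.1 + r₀)) ∧
      pat (z.1 + i * z.2) = pat z.1 := by
    intro z hz i hi
    have h5 := (Fintype.equivFin _).injective ((p1 z hz).2.2 i hi).2
    rw [Prod.mk.injEq] at h5
    exact ⟨fun W => congrFun h5.1 W, h5.2⟩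
  -- the elements of the progressions
  obtain ⟨cov, hcovd⟩ : ∃ cov : Finset ℕ, cov = (P.biUnion (apSet s)).filter (fun y => M * y + r₀ ∉ B) := ⟨_, rfl⟩
  have hcovGI : P.biUnion (apSet s) ⊆ GI := by
    intro y hy
    rw [mem_biUnion] at hy
    obtain ⟨z, hz, hyz⟩ := hy
    unfold apSet at hyz
    rw [mem_image] at hyz
    obtain ⟨i, hi, rfl⟩ := hyz
    exact ((p1 z hz).2.2 i (mem_range.1 hi)).1
  have hcov1 : κ₁ / 2 * Y * VL (fa M D c) (fb r₀ D c d) Y - B.card ≤ (cov.card : ℝ) := by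
    have e1 : ((P.biUnion (apSet s)).card : ℝ) + ((GI \ P.biUnion (apSet s)).card : ℝ) = GI.card := by
      have := card_sdiff_add_card_eq_card hcovGI
      have h5 : ((GI \ P.biUnion (apSet s)).card : ℝ) + ((P.biUnion (apSet s)).card : ℝ) = GI.card := by
        exact_mod_cast this
      linarith
    have e2 : ((P.biUnion (apSet s)).card : ℝ) ≤ cov.card + B.card := by
      have h5 : (P.biUnion (apSet s)).card = cov.card +
          ((P.biUnion (apSet s)).filter (fun y => ¬ M * y + r₀ ∉ B)).card := by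
        rw [hcovd]
        exact (card_filter_add_card_filter_not _).symm
      have h6 : ((P.biUnion (apSet s)).filter (fun y => ¬ M * y + r₀ ∉ B)).card ≤ B.card := by
        apply card_le_card_of_injOn (fun y => M * y + r₀)
        · intro y hy
          rw [mem_coe, mem_filter, not_not] at hy
          exact hy.2
        · intro y _ y' _ he
          have : M * y = M * y' := by
            simp only at he
            omega
          exact Nat.eq_of_mul_eq_mul_left hM this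
      exact_mod_cast (by omega : (P.biUnion (apSet s)).card ≤ cov.card + B.card)
    simp only [Nat.cast_zero, sub_zero] at hcount p3
    linarith
  have hcov2 : κ₁ ^ 2 / 4 * (Y / Real.log Y ^ (K + 2)) ≤ (cov.card : ℝ) := by
    refine le_trans ?_ hcov1
    have h5 : κ₁ / 2 * Y * (κ₁ / Real.log Y ^ (K + 2)) ≤ κ₁ / 2 * Y * VL (fa M D c) (fb r₀ D c d) Y := by
      gcongr
    have h6 : κ₁ / 2 * Y * (κ₁ / Real.log Y ^ (K + 2)) = κ₁ ^ 2 / 2 * (Y / Real.log Y ^ (K + 2)) := by ring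
    linarith
  -- pigeonhole
  have hpatne : ∀ y ∈ cov, (pat y).Nonempty := by
    intro y hy
    rw [hcovd, mem_filter] at hy
    by_contra hcon
    rw [not_nonempty_iff_eq_empty] at hcon
    have h5 : T.filter (fun W => ¬ (Pool.Agent.Y855.img (M * y + r₀) W).index ∣ κ) = T := by
      rw [filter_eq_self]
      intro W hW hd
      have : (⟨W, hW⟩ : {x // x ∈ T}) ∈ pat y := (hpat y ⟨W, hW⟩).2 hd
      rw [hcon] at this
      exact absurd this (notMem_empty _)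
    have h6 := hbadW y (hcovGI hy.1) hy.2
    rw [h5, hTc] at h6
    omega
  obtain ⟨W, hW⟩ : ∃ W : {x // x ∈ T}, (cov.card : ℝ) ≤ n * ((cov.filter (fun y => W ∈ pat y)).card : ℝ) := by
    by_contra hcon
    push Not at hcon
    have h5 : (cov.card : ℝ) ≤ ∑ W : {x // x ∈ T}, ((cov.filter (fun y => W ∈ pat y)).card : ℝ) := by
      have h6 : cov ⊆ (univ : Finset {x // x ∈ T}).biUnion (fun W => cov.filter (fun y => W ∈ pat y)) := by
        intro y hy
        obtain ⟨W, hW⟩ := hpatne y hy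
        rw [mem_biUnion]
        exact ⟨W, mem_univ _, mem_filter.2 ⟨hy, hW⟩⟩
      exact_mod_cast (card_le_card h6).trans card_biUnion_le
    have h7 : ∑ W : {x // x ∈ T}, ((cov.filter (fun y => W ∈ pat y)).card : ℝ) <
        ∑ _W : {x // x ∈ T}, (cov.card : ℝ) / n := by
      apply Finset.sum_lt_sum_of_nonempty hTne
      intro W _
      rw [lt_div_iff₀ hn0, mul_comm]
      exact hcon W
    rw [sum_const, card_univ, Fintype.card_coe, hTc, nsmul_eq_mul, mul_div_cancel₀ _ hn0.ne'] at h7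
    linarith
  -- contradiction
  have hXW : X₁ W ≤ X := by
    have := Finset.le_sup (f := X₁) (mem_univ W)
    omega
  have h9 := hX₁ W X hXW
  refine absurd h9 (not_lt.2 ?_)
  have hκX : κ₀ * (X / Real.log X ^ (K + 2)) ≤ ((cov.filter (fun y => W ∈ pat y)).card : ℝ) := by
    have e1 : (X : ℝ) / Real.log X ^ (K + 2) ≤ (M + r₀) * (Y / Real.log Y ^ (K + 2)) := by
      rw [← mul_div_assoc]
      gcongr
    have e2 : κ₀ * (X / Real.log X ^ (K + 2)) ≤ κ₀ * ((M + r₀) * (Y / Real.log Y ^ (K + 2))) := by gcongr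
    have e3 : κ₀ * ((M + r₀) * (Y / Real.log Y ^ (K + 2))) = (κ₁ ^ 2 / 4 * (Y / Real.log Y ^ (K + 2))) / n := by
      rw [hκ₀]
      field_simp
    rw [e3] at e2
    refine e2.trans ?_
    rw [div_le_iff₀ hn0]
    have e4 := hcov2.trans hW
    linarith
  refine hκX.trans ?_
  have hfin : (cov.filter (fun y => W ∈ pat y)).card ≤ ((Icc 1 X).filter (fun q => ∃ x b : ℕ, 1 ≤ b ∧
      (b : ℝ) ≤ Real.log X ^ (c₀ + 1) ∧
      (∃ i < ss W, q = x + i * b) ∧ ∀ i < ss W, χχ W (x + i * b) = χχ W q ∧ InS m a κ W (x + i * b) ∧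
        Isolated D (t₀ + 1) c d X (ε₀ / 2 * Real.log X) ((X : ℝ) ^ ββ W) (x + i * b))).card := by
    apply card_le_card_of_injOn (fun y => M * y + r₀)
    · intro y hy
      rw [mem_coe, mem_filter] at hy
      obtain ⟨hyc, hyW⟩ := hy
      rw [hcovd, mem_filter, mem_biUnion] at hyc
      obtain ⟨⟨z, hz, hyz⟩, hyB⟩ := hyc
      unfold apSet at hyz
      rw [mem_image] at hyz
      obtain ⟨i₀, hi₀, rfl⟩ := hyz
      rw [mem_range] at hi₀
      obtain ⟨q1, q2, q3⟩ := p1 z hz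
      obtain ⟨hyGI, _⟩ := q3 i₀ hi₀
      obtain ⟨⟨g1, g1'⟩, g2, g3, g4, g5, g6⟩ := hval _ hyGI
      rw [mem_coe, mem_filter, mem_Icc]
      refine ⟨⟨?_, ?_⟩, ?_⟩
      · change 1 ≤ M * (z.1 + i₀ * z.2) + r₀
        omega
      · change M * (z.1 + i₀ * z.2) + r₀ ≤ X
        rw [hX]
        have := Nat.mul_le_mul_left M g1
        omega
      -- the start of the subprogression
      obtain ⟨i₁, hi₁, hi₁', hi₁''⟩ : ∃ i₁ : ℕ, i₁ ≤ i₀ ∧ i₀ < i₁ + ss W ∧ i₁ + ss W ≤ s := by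
        rcases Nat.lt_or_ge (i₀ + ss W) s with h5 | h5
        · exact ⟨i₀, le_rfl, by have := hss W; omega, h5.le⟩
        · exact ⟨s - ss W, by omega, by have := hsW W; omega, by have := hsW W; omega⟩
      refine ⟨M * (z.1 + i₁ * z.2) + r₀, M * z.2, ?_, ?_, ⟨i₀ - i₁, by omega, ?_⟩, ?_⟩
      · exact Nat.mul_pos hM q1
      · push_cast
        calc (M : ℝ) * z.2 ≤ Real.log X * Real.log Y ^ c₀ := by
              apply mul_le_mul (hY5.trans hlogYX) q2 (by positivity) hlogX.le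
          _ ≤ Real.log X * Real.log X ^ c₀ := by gcongr
          _ = Real.log X ^ (c₀ + 1) := by ring
      · have h5 : i₀ = i₁ + (i₀ - i₁) := by omega
        generalize i₀ - i₁ = j at h5
        subst h5
        ring
      intro i hi
      have hq : M * (z.1 + i₁ * z.2) + r₀ + i * (M * z.2) = M * (z.1 + (i₁ + i) * z.2) + r₀ := by ring
      rw [hq]
      have hlt : i₁ + i < s := by omega
      obtain ⟨hyGI', _⟩ := q3 (i₁ + i) hlt
      obtain ⟨hc1, hc2⟩ := hcol z hz (i₁ + i) hlt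
      obtain ⟨hc3, hc4⟩ := hcol z hz i₀ hi₀
      refine ⟨by rw [hc1, hc3], ?_, ?_⟩
      · obtain ⟨-, g2, g3, -, -, -⟩ := hval _ hyGI'
        refine ⟨g2, hqa _, ?_, ?_⟩
        · exact Pool.Agent.Y855.val_zero _ g2 _ (hHW _ W.2 _ g2 (by have := (hHle _ W.2).1; omega))
        · have : W ∈ pat (z.1 + (i₁ + i) * z.2) := by rw [hc2, ← hc4]; exact hyW
          exact (hpat _ W).1 this
      · obtain ⟨⟨g1, g1'⟩, g2, g3, g4, g5, g6⟩ := hval _ hyGI'
        generalize z.1 + (i₁ + i) * z.2 = y at g1 g1' g2 g3 g4 g5 g6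
        have hvi := vals_iff M r₀ D c d hD0 hDM hDr hr₀ y
        refine ⟨hDq y, ⟨g4.1, g4.2.1, fun p hp hpd => ?_⟩, fun l => ?_, ?_⟩
        · exact lt_of_le_of_lt (hY1 X hXpos.le hXYr) (g4.2.2 p hp hpd)
        · obtain ⟨l', hl'⟩ := (hvi (c l * ((M * y + r₀ : ℕ) : ℤ) + d l)).1 (Or.inr (Or.inr ⟨l, rfl⟩))
          rw [hl']
          refine ⟨(g5 l').1, (g5 l').2.1.trans (by omega), fun p hp hpd => ?_⟩
          refine lt_of_le_of_lt ?_ ((g5 l').2.2 p hp hpd)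
          exact hY2 X hXpos.le hXYr
        · intro v hv z' hz1 hz2
          obtain ⟨l', hl'⟩ := (hvi v).1 hv
          obtain ⟨p, hp, hpy, hpz⟩ := g6 l' z' (by
            rw [← hl']
            refine hz1.trans ?_
            have : ε₀ / 2 * Real.log X ≤ ε₀ / 2 * (2 * Real.log Y) := by gcongr
            linarith) (fun l'' => hz2 _ ((hvi _).2 ⟨l'', rfl⟩))
          refine ⟨p, hp, hpy.trans ?_, hpz⟩
          calc (Y : ℝ) ^ β₀ ≤ (X : ℝ) ^ β₀ := Real.rpow_le_rpow hYpos.le (by exact_mod_cast hYX) hβ₀.le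
            _ ≤ (X : ℝ) ^ ββ W := Real.rpow_le_rpow_of_exponent_le hX1 (hβ₀W W)
    · intro y _ y' _ he
      have : M * y = M * y' := by
        simp only at he
        omega
      exact Nat.eq_of_mul_eq_mul_left hM this
  exact_mod_cast hfin

end Pool.Agent.Results.MP_48b1c3_nt.IsolatedConstellations
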