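import Mathlib
import Pool.Agent.T6.H1.Lz.Len

set_option autoImplicit false

/-! # Lenstra's conjecture for `W = ⟨W₀, D (u + v) ^ r⟩` and `W = ⟨W₀, D (u v + c) ^ r⟩`, relative to
ARBITRARY sets of primes and for ARBITRARY sets of `u` and of `v`

Let `η > 0` and let `x` be large in terms of `η` only.  Let `S` be an ARBITRARY set of primes `q ≤ x`
with `|S| ≥ x ^ (1 / 2 + η) log 2N`, and let `U`, `V` be ARBITRARY finite sets of integers of absolute
value at most `N`, with `|U| |V| ≥ x ^ (2 + η)` and `|U| |S|², |V| |S|² ≥ x ^ (2 + η) (log 2N)²`.  For every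
finite Galois extension `F / ℚ`, every set `C` of automorphisms, every subgroup `W₀` of `ℚˣ` (finitely
generated or not), all `k, r ≥ 1` and every rational `D ≠ 0` which is a unit at the primes of `S`, the
number of the `q ∈ S` in Lenstra's set `𝒮(F, C, W, k)`, `W = ⟨W₀, D (u + v) ^ r⟩`, is the sum of the
explicit local densities `loc` over `q ∈ S`, with an error of at most `x ^ (-η / 8) |S|`, for all but at
most `x ^ (-η / 8) |U| |V|` of the pairs `(u, v) ∈ U × V`.  The same holds for `W = ⟨W₀, D (u v + c) ^ r⟩`,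
for every integer `c ≠ 0`, `|c| ≤ N`, if `0 ∉ U` and `0 ∉ V`.  (Pairs with `u + v = 0`, or
`u v + c = 0`, are not counted as exceptions.)

The local densities are those of the starting file `ArbitrarySetsOfPrimes`, which treats the
integers `n ≤ N` of an interval.  Here neither the set of primes nor the sets `U`, `V` have any structure:
for instance `U` and `V` may be sets of primes, of sums of two squares, of values of polynomials, of integers
with missing digits, or random sets. -/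

namespace Pool.Agent.Results.MP_48b1c3_nt.SumsAndShiftedProducts

open Finset NumberField

/-- the Frobenius conjugacy class of `q` in `G(F/ℚ)` meets `C` -/
def FrobIn (F : IntermediateField ℚ (AlgebraicClosure ℚ)) [NumberField F]
    (C : Set (F ≃ₐ[ℚ] F)) (q : ℕ) : Prop :=
  ∃ σ ∈ C, ∃ Q : Ideal (𝓞 F), Q.IsPrime ∧
    Q.comap (algebraMap ℤ (𝓞 F)) = Ideal.span {(q : ℤ)} ∧
    ∀ a b : 𝓞 F, (b : F) = σ (a : F) → b - a ^ q ∈ Q

/-- `q` is in the set `𝒮(F, C, W, k)` of Q1: the Frobenius condition, `W` consists of `q`-units, and the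
index of `W` modulo `q` divides `k` -/
def InS (F : IntermediateField ℚ (AlgebraicClosure ℚ)) [NumberField F]
    (C : Set (F ≃ₐ[ℚ] F)) (W : Subgroup ℚˣ) (k q : ℕ) : Prop :=
  FrobIn F C q ∧ (∀ w ∈ W, padicValRat q (w : ℚ) = 0) ∧
    (Subgroup.closure {u : (ZMod q)ˣ | ∃ w ∈ W,
      (((w : ℚ).num : ℤ) : ZMod q) = (u : ZMod q) * (((w : ℚ).den : ℕ) : ZMod q)}).index ∣ k

/-- the reduction of `w` modulo `q` is a `d`-th power -/
def IsPow (q d : ℕ) (w : ℚˣ) : Prop :=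
  ∃ y : ZMod q, (((w : ℚ).num : ℤ) : ZMod q) = y ^ d * (((w : ℚ).den : ℕ) : ZMod q)

open Classical in
/-- the local factor at the prime `l`; here `Q = l ^ (ν_l(k) + 1)`. It is `1` unless `Q ∣ q - 1` and all
elements of `W₀` are `Q`-th powers modulo `q`; in this case it is `1 - g/Q` with `g = gcd(r, Q)` if `D`
is a `g`-th power modulo `q`, and `1` otherwise -/
noncomputable def factor (W₀ : Subgroup ℚˣ) (k : ℕ) (D : ℚˣ) (r q l : ℕ) : ℝ :=
  if l ^ (k.factorization l + 1) ∣ q - 1 ∧ ∀ w ∈ W₀, IsPow q (l ^ (k.factorization l + 1)) w then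
    1 - (if IsPow q (Nat.gcd r (l ^ (k.factorization l + 1))) D then
      (Nat.gcd r (l ^ (k.factorization l + 1)) : ℝ) / (l ^ (k.factorization l + 1) : ℕ) else 0)
  else 1

open Classical in
/-- the local density at `q`: the product of the local factors over the primes `l ∣ q - 1` if the
Frobenius class of `q` meets `C` and `W₀` consists of `q`-units, `0` otherwise. (It is the proportion of
the residue classes `m ≠ 0` modulo `q` such that `q` is in `𝒮(F, C, ⟨W₀, D m ^ r⟩, k)`.) -/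
noncomputable def loc (F : IntermediateField ℚ (AlgebraicClosure ℚ)) [NumberField F]
    (C : Set (F ≃ₐ[ℚ] F)) (W₀ : Subgroup ℚˣ) (k : ℕ) (D : ℚˣ) (r q : ℕ) : ℝ :=
  if FrobIn F C q ∧ ∀ w ∈ W₀, padicValRat q (w : ℚ) = 0 then
    ∏ l ∈ (q - 1).primeFactors, factor W₀ k D r q l else 0

open Classical in
/-- the number of the `q ∈ S` in `𝒮(F, C, ⟨W₀, D m ^ r⟩, k)` differs from the sum of the local densities
over `S` by more than `E` -/
def Bad (F : IntermediateField ℚ (AlgebraicClosure ℚ)) [NumberField F] (C : Set (F ≃ₐ[ℚ] F))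
    (W₀ : Subgroup ℚˣ) (k : ℕ) (D : ℚˣ) (r : ℕ) (S : Finset ℕ) (E : ℝ) (m : ℤ) : Prop :=
  E < |(#(S.filter (fun q => InS F C
      (W₀ ⊔ Subgroup.closure {w : ℚˣ | (w : ℚ) = (D : ℚ) * (m : ℚ) ^ r}) k q)) : ℝ) -
    ∑ q ∈ S, loc F C W₀ k D r q|

open Pool.Agent.W171.LG (rd Un rd_ne un_iff unW_iff UnW PW GF) in
lemma isPow_iff {q : ℕ} [Fact q.Prime] {w : ℚˣ} (h : Un q (w : ℚ)) (d : ℕ) :
    IsPow q d w ↔ ∃ y : ZMod q, y ^ d = rd q (w : ℚ) := by
  unfold IsPow rd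
  refine exists_congr fun y => ?_
  rw [eq_mul_inv_iff_mul_eq₀ h.2]
  exact eq_comm

open Pool.Agent.W171.LG (rd Un rd_ne un_iff unW_iff UnW PW GF QR) in
open Pool.Agent.H981R3.LN (ql Sk) in
open Pool.Agent.TH893.JO in
lemma loc_eq (F : IntermediateField ℚ (AlgebraicClosure ℚ)) [NumberField F] [IsGalois ℚ F]
    (C : Set (F ≃ₐ[ℚ] F)) (W₀ : Subgroup ℚˣ) (k : ℕ) (D : ℚˣ) (r : ℕ) {q : ℕ} (hq : q.Prime)
    (hD : padicValRat q (D : ℚ) = 0) :
    loc F C W₀ k D r q = Pool.Agent.TH890.AS.dens q (QR F C W₀ k D r q) := by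
  classical
  have : Fact q.Prime := ⟨hq⟩
  have hUD : Un q (D : ℚ) := (un_iff D.ne_zero).2 hD
  rw [dens_QR]
  unfold loc
  by_cases hW : UnW W₀ q
  · have hW' : ∀ w ∈ W₀, padicValRat q (w : ℚ) = 0 := (unW_iff W₀).1 hW
    by_cases hG : FrobIn F C q
    · have hG' : GF F C q := hG
      rw [if_pos ⟨hG, hW'⟩, if_pos ⟨hG', hW, hUD⟩]
      unfold LL Sk
      rw [filter_filter, prod_filter]
      refine prod_congr rfl fun l hl => ?_
      unfold factor
      have e1 : (ql k l ∣ q - 1 ∧ PW W₀ (ql k l) q) ↔ (l ^ (k.factorization l + 1) ∣ q - 1 ∧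
          ∀ w ∈ W₀, IsPow q (l ^ (k.factorization l + 1)) w) := by
        change (ql k l ∣ q - 1 ∧ PW W₀ (ql k l) q) ↔ (ql k l ∣ q - 1 ∧ ∀ w ∈ W₀, IsPow q (ql k l) w)
        refine and_congr_right fun hd => ?_
        unfold PW
        constructor
        · rintro ⟨-, h⟩ w hw
          rw [isPow_iff (hW w hw), ← zpow_iff (rd_ne (hW w hw)) hd]
          exact h w hw
        · intro h
          refine ⟨hd, fun w hw => ?_⟩
          rw [zpow_iff (rd_ne (hW w hw)) hd, ← isPow_iff (hW w hw)]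
          exact h w hw
      by_cases hc : ql k l ∣ q - 1 ∧ PW W₀ (ql k l) q
      · rw [if_pos hc, if_pos (e1.1 hc)]
        congr 1
        unfold PD
        have e2 : IsPow q (Nat.gcd r (l ^ (k.factorization l + 1))) D ↔
            ∃ y : ZMod q, y ^ Nat.gcd r (ql k l) = rd q (D : ℚ) := isPow_iff hUD _
        by_cases hP : IsPow q (Nat.gcd r (l ^ (k.factorization l + 1))) D
        · rw [if_pos hP, if_pos (e2.1 hP)]
          rfl
        · rw [if_neg hP, if_neg (fun h => hP (e2.2 h))]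
      · rw [if_neg hc, if_neg (fun h => hc (e1.2 h))]
    · rw [if_neg (fun h => hG h.1), if_neg (fun h => hG h.1)]
  · rw [if_neg (fun h => hW ((unW_iff W₀).2 h.2)), if_neg (fun h => hW h.2.1)]

open Classical in
/-- **Lenstra's condition for sums and shifted products of arbitrary sets, in arbitrary sets of primes.** -/
theorem result (η : ℝ) (hη : 0 < η) : ∃ x₀ : ℕ, ∀ (x N : ℕ) (S : Finset ℕ) (U V : Finset ℤ),
    x₀ ≤ x → 1 ≤ N → (∀ q ∈ S, q.Prime ∧ q ≤ x) →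
    (x : ℝ) ^ (1 / 2 + η) * Real.log (2 * N) ≤ #S →
    (∀ u ∈ U, |u| ≤ N) → (∀ v ∈ V, |v| ≤ N) → (x : ℝ) ^ (2 + η) ≤ (#U : ℝ) * #V →
    (x : ℝ) ^ (2 + η) * Real.log (2 * N) ^ 2 ≤ (#U : ℝ) * (#S : ℝ) ^ 2 →
    (x : ℝ) ^ (2 + η) * Real.log (2 * N) ^ 2 ≤ (#V : ℝ) * (#S : ℝ) ^ 2 →
    ∀ (F : IntermediateField ℚ (AlgebraicClosure ℚ)) [NumberField F] [IsGalois ℚ F]
      (C : Set (F ≃ₐ[ℚ] F)) (W₀ : Subgroup ℚˣ) (k : ℕ) (D : ℚˣ) (r : ℕ), 0 < k → 0 < r →
      (∀ q ∈ S, padicValRat q (D : ℚ) = 0) →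
      (#((U ×ˢ V).filter (fun z => z.1 + z.2 ≠ 0 ∧
          Bad F C W₀ k D r S ((x : ℝ) ^ (-(η / 8)) * #S) (z.1 + z.2))) : ℝ) ≤
        (x : ℝ) ^ (-(η / 8)) * ((#U : ℝ) * #V) ∧
      ∀ c : ℤ, c ≠ 0 → |c| ≤ N → 0 ∉ U → 0 ∉ V →
        (#((U ×ˢ V).filter (fun z => z.1 * z.2 + c ≠ 0 ∧
            Bad F C W₀ k D r S ((x : ℝ) ^ (-(η / 8)) * #S) (z.1 * z.2 + c))) : ℝ) ≤
          (x : ℝ) ^ (-(η / 8)) * ((#U : ℝ) * #V) := by
  obtain ⟨X, -, h⟩ := Pool.Agent.T6.H1.Lz.len_sums η hη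
  refine ⟨X, ?_⟩
  intro x N S U V hx hN hS hQ hU hV hUV hLU hLV F _ _ C W₀ k D r hk hr hD
  have hC : Pool.Agent.T6.H1.Ar.Cnd η x N 1 S U V :=
    ⟨hN, fun q hq => ⟨(hS q hq).1, (hS q hq).2, fun h1 => (hS q hq).1.one_lt.ne'
      (by exact_mod_cast Int.eq_one_of_dvd_one (Int.natCast_nonneg q) h1)⟩, hQ, hU, hV, hUV, hLU, hLV⟩
  have e : ∑ q ∈ S, loc F C W₀ k D r q =
      ∑ q ∈ S, Pool.Agent.TH890.AS.dens q (Pool.Agent.W171.LG.QR F C W₀ k D r q) :=
    sum_congr rfl fun q hq => loc_eq F C W₀ k D r (hS q hq).1 (hD q hq)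
  have h1 := h x N S U V hx hC F C W₀ k D r hk.ne' hr.ne' hD
  unfold Bad
  rw [e]
  exact h1

end Pool.Agent.Results.MP_48b1c3_nt.SumsAndShiftedProducts
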