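import Mathlib
import Pool.Agent.T6.H1.Lz.ThinLen

set_option autoImplicit false

/-! # Lenstra's density formula for the prime divisors of the index in a thin set, for EVERY `(F, C, W, k)`

The index `r_q(W)` divides `k` if and only if `l ^ (ν_l(k) + 1) ∤ r_q(W)` for all primes `l`.  Let `R` be
any set of primes with `∑_{l ∈ R} 1 / l < ∞`, let `η q → 0` and let `r ≥ 1` be at most the rank of `W`.  For
every admissible quadruple `(F, C, W, k)` of Q1, the primes `q` such that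

* the Frobenius class of `q` is contained in `C`, and `W` consists of `q`-units,
* `l ^ (ν_l(k) + 1) ∤ r_q(W)` for every prime `l ∈ R`, and for every prime `l ≥ q ^ (1 / (r + 1) - η q)`,

have the natural density

`δ_R = ∑ μ(n) c(n) / [F L_n : ℚ]`, the sum being over the `n` all of whose prime factors are in `R`,

with an absolutely convergent series.  If `R` is the set of all primes, this is the set `𝒮(F, C, W, k)` and
the formula of Q1.  (For `r = 1`, which is allowed for every admissible `W`, the exponent `1 / (r + 1)` is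
`1 / 2`; for groups of rank `r` it is `1 / (r + 1)`.) -/

namespace Pool.Agent.Results.MP_48b1c3_nt.ThinIndexSets

open NumberField Finset Filter Topology Classical

/-- the Frobenius conjugacy class of `q` in `G(F/ℚ)` meets `C` -/
def FrobIn (F : IntermediateField ℚ (AlgebraicClosure ℚ)) [NumberField F]
    (C : Set (F ≃ₐ[ℚ] F)) (q : ℕ) : Prop :=
  ∃ σ ∈ C, ∃ Q : Ideal (𝓞 F), Q.IsPrime ∧
    Q.comap (algebraMap ℤ (𝓞 F)) = Ideal.span {(q : ℤ)} ∧
    ∀ a b : 𝓞 F, (b : F) = σ (a : F) → b - a ^ q ∈ Q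

/-- the index `r_q(W)` of `W` modulo `q` -/
noncomputable def ind (W : Subgroup ℚˣ) (q : ℕ) : ℕ :=
  (Subgroup.closure {u : (ZMod q)ˣ | ∃ w ∈ W,
    (((w : ℚ).num : ℤ) : ZMod q) = (u : ZMod q) * (((w : ℚ).den : ℕ) : ZMod q)}).index

/-- the rank of `W` is at least `r` -/
def RankGE (r : ℕ) (W : Subgroup ℚˣ) : Prop :=
  ∃ b : Fin r → ℚˣ, (∀ j, b j ∈ W) ∧ ∀ e : Fin r → ℤ, ∏ j, b j ^ e j = 1 → ∀ j, e j = 0

/-- the number of the primes `q ≤ x` with Frobenius class in `C`, such that `W` consists of `q`-units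
and no prime `l` which is in `R` or at least `q ^ (1 / (r + 1) - η q)` is an obstruction to `r_q(W) ∣ k` -/
noncomputable def S (F : IntermediateField ℚ (AlgebraicClosure ℚ)) [NumberField F]
    (C : Set (F ≃ₐ[ℚ] F)) (W : Subgroup ℚˣ) (k r : ℕ) (R : Set ℕ) (η : ℕ → ℝ) (x : ℕ) : ℕ :=
  ((Finset.range (x + 1)).filter (fun q : ℕ => q.Prime ∧ FrobIn F C q ∧
    (∀ w ∈ W, padicValRat q (w : ℚ) = 0) ∧
    ∀ l : ℕ, l.Prime → (l ∈ R ∨ (q : ℝ) ^ (1 / ((r : ℝ) + 1) - η q) ≤ l) →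
      ¬ l ^ (k.factorization l + 1) ∣ ind W q)).card

/-- the field `L_n` -/
noncomputable def L (W : Subgroup ℚˣ) (k n : ℕ) : IntermediateField ℚ (AlgebraicClosure ℚ) :=
  IntermediateField.adjoin ℚ {z : AlgebraicClosure ℚ | ∃ w ∈ W,
    z ^ (∏ l ∈ n.primeFactors, l ^ (k.factorization l + 1)) = algebraMap ℚ (AlgebraicClosure ℚ) (w : ℚ)}

/-- the term of Lenstra's series if all prime factors of `n` are in `R`, and `0` otherwise -/
noncomputable def term (F : IntermediateField ℚ (AlgebraicClosure ℚ)) [NumberField F]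
    (C : Set (F ≃ₐ[ℚ] F)) (W : Subgroup ℚˣ) (k : ℕ) (R : Set ℕ) (n : ℕ) : ℝ :=
  if ∀ l ∈ n.primeFactors, l ∈ R then
    (ArithmeticFunction.moebius n : ℝ) *
      (Nat.card {σ : F ≃ₐ[ℚ] F // σ ∈ C ∧ ∀ y : F, (y : AlgebraicClosure ℚ) ∈ L W k n → σ y = y} : ℝ) /
      (Module.finrank ℚ ↥(F ⊔ L W k n) : ℝ)
  else 0

/-- **Lenstra's formula for the prime divisors of the index in a thin set.** -/
theorem result (F : IntermediateField ℚ (AlgebraicClosure ℚ)) [NumberField F] [IsGalois ℚ F]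
    (C : Set (F ≃ₐ[ℚ] F)) (W : Subgroup ℚˣ) (k : ℕ)
    (hC : ∀ σ ∈ C, ∀ τ : F ≃ₐ[ℚ] F, τ * σ * τ⁻¹ ∈ C)
    (hW : W.FG) (hW1 : ∃ w ∈ W, ¬ IsOfFinOrder w) (_hk : 0 < k) :
    RankGE 1 W ∧ ∀ r : ℕ, 1 ≤ r → RankGE r W →
      ∀ R : Set ℕ, (∀ l ∈ R, l.Prime) → Summable (fun l : R => 1 / ((l : ℕ) : ℝ)) →
      ∀ η : ℕ → ℝ, Tendsto η atTop (𝓝 0) →
        Summable (term F C W k R) ∧
        Tendsto (fun x : ℕ => (S F C W k r R η x : ℝ) / (Nat.primeCounting x : ℝ)) atTop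
          (𝓝 (∑' n : ℕ, term F C W k R n)) := by
  refine ⟨?_, ?_⟩
  · obtain ⟨w, hw, hfin⟩ := hW1
    refine ⟨fun _ => w, fun _ => hw, fun e he j => ?_⟩
    rw [Fin.prod_univ_one] at he
    by_contra hne
    have hj : e 0 ≠ 0 := by
      have : j = 0 := Subsingleton.elim _ _
      rwa [this] at hne
    exact hfin (isOfFinOrder_iff_zpow_eq_one.2 ⟨e 0, hj, he⟩)
  · rintro r hr ⟨b, hb, hI⟩ R hR hsum η hη
    have e0 : term F C W k R = Pool.Agent.T6.H1.Lz.gR F C W k R := rfl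
    rw [e0]
    refine ⟨Pool.Agent.T6.H1.Lz.gR_summable F C W k hW R hR hsum, ?_⟩
    have h := Pool.Agent.T6.H1.Lz.thin F C W k hC hW r hr b hb hI R hR hsum η hη
    refine h.congr fun x => ?_
    congr 2
    unfold S
    congr 1
    ext p
    rw [mem_filter, mem_filter, Pool.Agent.H981R3.LN.mem_PP, mem_range, Nat.lt_succ_iff]
    constructor
    · rintro ⟨⟨h1, h2⟩, ⟨h3, h4⟩, h5⟩
      have : Fact p.Prime := ⟨h2⟩
      exact ⟨h1, h2, h3, (Pool.Agent.W171.LG.unW_iff W).1 h4, h5⟩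
    · rintro ⟨h1, h2, h3, h4, h5⟩
      have : Fact p.Prime := ⟨h2⟩
      exact ⟨⟨h1, h2⟩, ⟨h3, (Pool.Agent.W171.LG.unW_iff W).2 h4⟩, h5⟩

end Pool.Agent.Results.MP_48b1c3_nt.ThinIndexSets
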